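import Pool.Agent.Helper62.LH.StG

/-!
# Project LH (MP_087a81_gt), module ALX

Alexandrov comparison.
-/

set_option autoImplicit false

open Set Filter Topology MeasureTheory
open scoped ContDiff ENNReal

noncomputable section

namespace Pool.Agent.Helper7.LH

open Helper62.LH

/-- gluing two metric geodesics -/
theorem mgeo_glue {n : ℕ} {g : E n → Bl n}
    (hdsymm : ∀ x y, dg g x y = dg g y x)
    (htri : ∀ x y z, dg g x z ≤ dg g x y + dg g y z) {x y z : E n} {t : ℝ} (ht0 : 0 < t)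
    (ht1 : t < 1) (hxz : dg g x z = t * dg g x y) (hzy : dg g z y = (1 - t) * dg g x y)
    {c₁ c₂ : ℝ → E n} (h₁ : MGeo g c₁ x z) (h₂ : MGeo g c₂ z y) :
    ∃ c : ℝ → E n, MGeo g c x y ∧ c t = z := by
  obtain ⟨h10, h11, h1d⟩ := h₁
  obtain ⟨h20, h21, h2d⟩ := h₂
  have h1t : 0 < 1 - t := by linarith only [ht1]
  obtain ⟨c, hc⟩ : ∃ c : ℝ → E n, c = fun s => if s ≤ t then c₁ (s / t) else c₂ ((s - t) / (1 - t)) :=
    ⟨_, rfl⟩
  have hA : ∀ s, s ≤ t → c s = c₁ (s / t) := by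
    intro s hs
    rw [hc]
    exact if_pos hs
  have hB : ∀ s, t < s → c s = c₂ ((s - t) / (1 - t)) := by
    intro s hs
    rw [hc]
    exact if_neg (not_le.2 hs)
  have hmA : ∀ s, 0 ≤ s → s ≤ t → s / t ∈ Icc (0 : ℝ) 1 := fun s hs hst =>
    ⟨div_nonneg hs ht0.le, (div_le_one ht0).2 hst⟩
  have hmB : ∀ s, t < s → s ≤ 1 → (s - t) / (1 - t) ∈ Icc (0 : ℝ) 1 := fun s hs hst =>
    ⟨div_nonneg (by linarith only [hs]) h1t.le, (div_le_one h1t).2 (by linarith only [hst])⟩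
  have hc0 : c 0 = x := by
    rw [hA 0 ht0.le, zero_div, h10]
  have hc1 : c 1 = y := by
    rw [hB 1 ht1, div_self h1t.ne', h21]
  have hct : c t = z := by
    rw [hA t le_rfl, div_self ht0.ne', h11]
  -- ordered pairs
  have hAA : ∀ s s', 0 ≤ s → s ≤ s' → s' ≤ t → dg g (c s) (c s') = (s' - s) * dg g x y := by
    intro s s' hs hss hst
    rw [hA s (hss.trans hst), hA s' hst, h1d _ (hmA s hs (hss.trans hst)) _
      (hmA s' (hs.trans hss) hst), hxz, ← sub_div, abs_div, abs_of_pos ht0,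
      abs_of_nonpos (by linarith only [hss])]
    field_simp
    ring
  have hBB : ∀ s s', t < s → s ≤ s' → s' ≤ 1 → dg g (c s) (c s') = (s' - s) * dg g x y := by
    intro s s' hs hss hst
    rw [hB s hs, hB s' (hs.trans_le hss), h2d _ (hmB s hs (hss.trans hst)) _
      (hmB s' (hs.trans_le hss) hst), hzy, ← sub_div, abs_div, abs_of_pos h1t,
      abs_of_nonpos (by linarith only [hss])]
    field_simp
    ring
  have hzB : ∀ s, t < s → s ≤ 1 → dg g z (c s) = (s - t) * dg g x y := by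
    intro s hs hs1
    have h := h2d 0 ⟨le_rfl, zero_le_one⟩ _ (hmB s hs hs1)
    rw [h20, ← hB s hs, zero_sub, abs_neg, abs_of_nonneg (hmB s hs hs1).1, hzy] at h
    rw [h]
    field_simp
  have hBy : ∀ s, t < s → s ≤ 1 → dg g (c s) y = (1 - s) * dg g x y := by
    intro s hs hs1
    have h := hBB s 1 hs hs1 le_rfl
    rw [hc1] at h
    exact h
  have hxA : ∀ s, 0 ≤ s → s ≤ t → dg g x (c s) = s * dg g x y := by
    intro s hs hst
    have h := hAA 0 s le_rfl hs hst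
    rw [hc0, sub_zero] at h
    exact h
  have hAz : ∀ s, 0 ≤ s → s ≤ t → dg g (c s) z = (t - s) * dg g x y := by
    intro s hs hst
    have h := hAA s t hs hst le_rfl
    rw [hct] at h
    exact h
  have hord : ∀ s s', 0 ≤ s → s ≤ s' → s' ≤ 1 → dg g (c s) (c s') = (s' - s) * dg g x y := by
    intro s s' hs hss hs1
    by_cases hst : s' ≤ t
    · exact hAA s s' hs hss hst
    · have hst' := not_le.1 hst
      by_cases hs2 : t < s
      · exact hBB s s' hs2 hss hs1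
      · have hs2' := not_lt.1 hs2
        apply le_antisymm
        · have h1 := htri (c s) z (c s')
          rw [hAz s hs hs2', hzB s' hst' hs1] at h1
          linarith only [h1]
        · have h1 := htri x (c s) y
          have h2 := htri (c s) (c s') y
          rw [hxA s hs hs2'] at h1
          rw [hBy s' hst' hs1] at h2
          linarith only [h1, h2]
  refine ⟨c, ⟨hc0, hc1, ?_⟩, hct⟩
  intro s hs s' hs'
  rcases le_total s s' with h | h
  · rw [hord s s' hs.1 h hs'.2, abs_of_nonpos (by linarith only [h])]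
    ring
  · rw [hdsymm, hord s' s hs'.1 h hs.2, abs_of_nonneg (by linarith only [h])]

theorem hAlx (hMet : StMet) (hDlc : StDlc) (hMg : StMg) (hRgc : StRgc) (hPtr : StPtr)
    (hUp : StUp) (hCc : StCc) : StAlx := by
  intro n g Γ hg hΓ hC hS
  obtain ⟨-, -, hdnn, hdself, hdsymm, htri⟩ := hMet n g hg
  obtain ⟨-, heq, hcont⟩ := hDlc n g hg
  obtain ⟨-, hspeed⟩ := hPtr n g Γ hg hΓ
  have h1 : ∀ (q : E n) (β w : ℝ → E n) (a b : ℝ), a ≤ b → Geo Γ β w a b →
    ConcaveOn ℝ (Icc a b) (fun τ => dg g q (β τ) ^ 2 - g (β a) (w a) (w a) * τ ^ 2) := by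
    intro q β w a b hab hgeo
    have hβ : ContinuousOn β (Icc a b) := fun τ hτ => (hgeo.dc τ hτ).continuousWithinAt
    have hφ : ContinuousOn (fun τ => dg g q (β τ) ^ 2 / 2) (Icc a b) := by
      have hcq : Continuous (fun y => dg g q y) := hcont.comp (Continuous.prodMk_right q)
      exact ((hcq.comp_continuousOn hβ).pow 2).div_const 2
    have hbar : ∀ τ₀ ∈ Ioo a b, ∃ α : ℝ, ∀ ε > 0, ∀ᶠ τ in 𝓝 τ₀,
        (fun τ => dg g q (β τ) ^ 2 / 2) τ ≤ (fun τ => dg g q (β τ) ^ 2 / 2) τ₀ +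
          α * (τ - τ₀) + (g (β a) (w a) (w a) / 2 + ε) * (τ - τ₀) ^ 2 := by
      intro τ₀ hτ₀
      obtain ⟨α, hα⟩ := hUp n g Γ hg hΓ hC hS q β w a b τ₀ hgeo hτ₀
      refine ⟨α, fun ε hε => ?_⟩
      have h := hα ε hε
      rw [hspeed β w a b hgeo τ₀ (Ioo_subset_Icc_self hτ₀)] at h
      exact h
    have hconc := hCc (fun τ => dg g q (β τ) ^ 2 / 2) a b (g (β a) (w a) (w a) / 2) hab hφ hbar
    have h2 := hconc.smul (show (0 : ℝ) ≤ 2 by norm_num)
    refine h2.congr ?_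
    intro τ _
    simp only [smul_eq_mul]
    ring
  refine ⟨h1, ?_⟩
  intro x y z q t ht hz
  obtain ⟨hxz, hzy⟩ := hz
  rcases ht.1.eq_or_lt with h0 | h0
  · subst h0
    rw [zero_mul] at hxz
    have hzx : x = z := heq x z hxz
    subst hzx
    apply le_of_eq
    ring
  rcases ht.2.eq_or_lt with h01 | h01
  · subst h01
    rw [sub_self, zero_mul] at hzy
    have hzy' : z = y := heq z y hzy
    subst hzy'
    apply le_of_eq
    ring
  obtain ⟨c₁, hc₁⟩ := hMg n g hg hC x z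
  obtain ⟨c₂, hc₂⟩ := hMg n g hg hC z y
  obtain ⟨c, hc, hct⟩ := mgeo_glue hdsymm htri h0 h01 hxz hzy hc₁ hc₂
  obtain ⟨v, hv, hsp⟩ := hRgc n g Γ hg hΓ c x y hc
  have hcon := h1 q c v 0 1 zero_le_one hv
  have hsp0 := hsp 0 ⟨le_rfl, zero_le_one⟩
  have h := hcon.2 (show (0 : ℝ) ∈ Icc (0 : ℝ) 1 from ⟨le_rfl, zero_le_one⟩)
    (show (1 : ℝ) ∈ Icc (0 : ℝ) 1 from ⟨zero_le_one, le_rfl⟩)
    (show (0 : ℝ) ≤ 1 - t by linarith only [h01]) h0.le (by ring)
  simp only [smul_eq_mul, mul_zero, mul_one, zero_add, hct] at h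
  rw [hc.1] at h hsp0
  rw [hc.2.1, hsp0] at h
  linarith only [h]

end Pool.Agent.Helper7.LH

end
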