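import Pool.Agent.Helper62.LH.StG

/-!
# Project LH (MP_087a81_gt), module BUS

The Busemann type function of a complete metric of nonnegative sectional curvature on `ℝⁿ` is a
proper convex function of linear growth.
-/

set_option autoImplicit false

open Set Filter Topology MeasureTheory
open scoped ContDiff ENNReal

noncomputable section

namespace Pool.Agent.Helper7.LH

open Helper62.LH

/-- the limsup is bounded below along any family leaving every compact set -/
theorem bf_ge {n : ℕ} {g : E n → Bl n}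
    (htri : ∀ x y z, dg g x z ≤ dg g x y + dg g y z)
    (hcont : Continuous (fun q : E n × E n => dg g q.1 q.2)) (p z : E n) (a : ℝ)
    (hf : ∀ M : ℝ, ∃ x : E n, M < dg g p x ∧ a ≤ dg g p x - dg g z x) : a ≤ bf g p z := by
  have hbd : IsBoundedUnder (· ≤ ·) (cocompact (E n)) (fun y => dg g p y - dg g z y) := by
    refine isBoundedUnder_of ⟨dg g p z, fun y => ?_⟩
    have := htri p z y
    linarith only [this]
  have hfr : ∃ᶠ y in cocompact (E n), a ≤ dg g p y - dg g z y := by
    rw [Filter.frequently_iff]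
    intro U hU
    obtain ⟨K, hK, hKU⟩ := mem_cocompact.1 hU
    have hc : Continuous (fun y => dg g p y) := hcont.comp (Continuous.prodMk_right p)
    obtain ⟨M, hM⟩ := (hK.image hc).bddAbove
    obtain ⟨x, hx1, hx2⟩ := hf M
    refine ⟨x, hKU ?_, hx2⟩
    intro hxK
    have := hM ⟨x, hxK, rfl⟩
    simp only at this
    linarith only [this, hx1]
  exact le_limsup_of_frequently_le hfr hbd

/-- convexity along a metric geodesic starting at a zero of `b` -/
theorem b_le {n : ℕ} {b : E n → ℝ} {c : ℝ → E n} {p x : E n} (hb : b p = 0) (h0 : c 0 = p)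
    (h1 : c 1 = x) (hc : ConvexOn ℝ (Icc (0 : ℝ) 1) (fun τ => b (c τ))) (t : ℝ) (ht0 : 0 ≤ t)
    (ht1 : t ≤ 1) : b (c t) ≤ t * b x := by
  have h := hc.2 (show (0 : ℝ) ∈ Icc (0 : ℝ) 1 from ⟨le_rfl, zero_le_one⟩)
    (show (1 : ℝ) ∈ Icc (0 : ℝ) 1 from ⟨zero_le_one, le_rfl⟩)
    (show (0 : ℝ) ≤ 1 - t by linarith only [ht1]) ht0 (by ring)
  simp only [smul_eq_mul, mul_zero, mul_one, zero_add, h0, h1, hb] at h
  exact h

theorem hBus (hMet : StMet) (hDlc : StDlc) (hHr : StHr) (hMg : StMg) (hRgc : StRgc)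
    (hBfa : StBfa) : StBus := by
  intro n g Γ hn hg hΓ hC hS
  obtain ⟨-, -, hdnn, hdself, hdsymm, htri⟩ := hMet n g hg
  obtain ⟨-, -, hcont⟩ := hDlc n g hg
  obtain ⟨p, hp⟩ : ∃ p : E n, p = 0 := ⟨0, rfl⟩
  obtain ⟨hb0, hlip, hcvx⟩ := hBfa n g Γ hn hg hΓ hC hS p
  -- points on a metric geodesic from `p` to `x`
  have hpt : ∀ (x : E n) (r : ℝ), 0 < r → r ≤ dg g p x → ∃ z : E n, dg g p z = r ∧
      dg g z x = dg g p x - r ∧ bf g p z ≤ (r / dg g p x) * bf g p x := by
    intro x r hr hrx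
    obtain ⟨c, hc0, hc1, hcd⟩ := hMg n g hg hC p x
    obtain ⟨v, hv, -⟩ := hRgc n g Γ hg hΓ c p x ⟨hc0, hc1, hcd⟩
    have hD : 0 < dg g p x := lt_of_lt_of_le hr hrx
    have ht0 : 0 ≤ r / dg g p x := (div_pos hr hD).le
    have ht1 : r / dg g p x ≤ 1 := (div_le_one hD).2 hrx
    have hrD : r / dg g p x * dg g p x = r := div_mul_cancel₀ r hD.ne'
    refine ⟨c (r / dg g p x), ?_, ?_, ?_⟩
    · have h := hcd 0 ⟨le_rfl, zero_le_one⟩ (r / dg g p x) ⟨ht0, ht1⟩
      rw [hc0, zero_sub, abs_neg, abs_of_nonneg ht0, hrD] at h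
      exact h
    · have h := hcd (r / dg g p x) ⟨ht0, ht1⟩ 1 ⟨zero_le_one, le_rfl⟩
      rw [hc1, abs_of_nonpos (by linarith only [ht1]), neg_sub, sub_mul, one_mul, hrD] at h
      exact h
    · exact b_le hb0 hc0 hc1 (hcvx c v 0 1 zero_le_one hv) _ ht0 ht1
  -- (a) sublevel sets are bounded
  have ha : ∀ C : ℝ, ∃ ρ : ℝ, ∀ x, bf g p x ≤ C → dg g p x ≤ ρ := by
    intro C
    by_contra hcon
    push Not at hcon
    obtain ⟨T, hT⟩ : ∃ T : ℝ, T = max 0 C + 1 := ⟨_, rfl⟩
    have hT0 : 0 < T := by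
      rw [hT]
      have := le_max_left 0 C
      linarith only [this]
    have hTC : C ≤ T - 1 := by
      rw [hT]
      have := le_max_right 0 C
      linarith only [this]
    have hT1 : 0 ≤ T - 1 := by
      rw [hT]
      have := le_max_left 0 C
      linarith only [this]
    choose x hx using fun k : ℕ => hcon (T + k)
    have hxT : ∀ k, T ≤ dg g p (x k) := by
      intro k
      have h1 := (hx k).2
      have h2 : (0 : ℝ) ≤ k := Nat.cast_nonneg k
      linarith only [h1, h2]
    choose z hz using fun k : ℕ => hpt (x k) T hT0 (hxT k)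
    have hbz : ∀ k, bf g p (z k) ≤ T - 1 := by
      intro k
      refine (hz k).2.2.trans ?_
      have hD : 0 < dg g p (x k) := lt_of_lt_of_le hT0 (hxT k)
      have ht0 : 0 ≤ T / dg g p (x k) := (div_pos hT0 hD).le
      have ht1 : T / dg g p (x k) ≤ 1 := (div_le_one hD).2 (hxT k)
      calc T / dg g p (x k) * bf g p (x k) ≤ T / dg g p (x k) * (T - 1) :=
            mul_le_mul_of_nonneg_left ((hx k).1.trans hTC) ht0
        _ ≤ 1 * (T - 1) := mul_le_mul_of_nonneg_right ht1 hT1
        _ = T - 1 := one_mul _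
    obtain ⟨w, -, φ, hφ, hlim⟩ := (hHr n g hg hC p T).tendsto_subseq
      (x := z) (fun k => (hz k).1.le)
    have hdw : Tendsto (fun k => dg g w (z (φ k))) atTop (𝓝 0) := by
      have h1 : Continuous (fun y => dg g w y) := hcont.comp (Continuous.prodMk_right w)
      have h2 := (h1.tendsto w).comp hlim
      rw [hdself w] at h2
      exact h2
    have hev : ∀ᶠ k in atTop, dg g w (z (φ k)) < 1 / 4 :=
      (tendsto_order.1 hdw).2 (1 / 4) (by norm_num)
    obtain ⟨N, hN⟩ := eventually_atTop.1 hev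
    have hup : bf g p w ≤ T - 1 + 1 / 4 := by
      have h1 := hlip w (z (φ N))
      have h2 := (abs_le.1 h1).2
      have h3 := hbz (φ N)
      have h4 := hN N le_rfl
      linarith only [h2, h3, h4]
    have hlow : T - 1 / 4 ≤ bf g p w := by
      refine bf_ge htri hcont p w _ ?_
      intro M
      obtain ⟨m, hm⟩ := exists_nat_gt M
      obtain ⟨k, hk⟩ : ∃ k, k = max N m := ⟨_, rfl⟩
      have hkN : N ≤ k := by rw [hk]; exact le_max_left _ _
      have hkm : m ≤ k := by rw [hk]; exact le_max_right _ _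
      have hφk : m ≤ φ k := hkm.trans (hφ.id_le k)
      refine ⟨x (φ k), ?_, ?_⟩
      · have h1 := (hx (φ k)).2
        have h2 : (m : ℝ) ≤ (φ k : ℝ) := by exact_mod_cast hφk
        linarith only [h1, h2, hm, hT0]
      · have h1 := htri w (z (φ k)) (x (φ k))
        have h2 := hN k hkN
        have h3 := (hz (φ k)).2.1
        linarith only [h1, h2, h3]
    linarith only [hup, hlow]
  -- (b) continuity
  have hbc : Continuous (bf g p) := by
    rw [continuous_iff_continuousAt]
    intro x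
    have h1 : Continuous (fun y => dg g y x) := hcont.comp (Continuous.prodMk_left x)
    have h2 : Tendsto (fun y => dg g y x) (𝓝 x) (𝓝 0) := by
      have := h1.tendsto x
      rw [hdself x] at this
      exact this
    refine tendsto_iff_dist_tendsto_zero.2 (squeeze_zero (fun y => dist_nonneg) (fun y => ?_) h2)
    rw [Real.dist_eq]
    exact hlip y x
  -- (c) growth
  obtain ⟨ρ, hρ⟩ := ha 1
  obtain ⟨r0, hr0⟩ : ∃ r : ℝ, r = max ρ 0 + 1 := ⟨_, rfl⟩
  have hr0pos : 0 < r0 := by
    rw [hr0]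
    have := le_max_right ρ 0
    linarith only [this]
  have hr0ρ : ρ < r0 := by
    rw [hr0]
    have := le_max_left ρ 0
    linarith only [this]
  refine ⟨p, bf g p, 1 / r0, r0, ⟨hlip, hcvx, one_div_pos.2 hr0pos, ?_, ?_⟩⟩
  · intro x hx
    obtain ⟨z, hz1, -, hz3⟩ := hpt x r0 hr0pos hx
    have hD : 0 < dg g p x := lt_of_lt_of_le hr0pos hx
    have hbz : 1 < bf g p z := by
      by_contra hle
      have := hρ z (not_lt.1 hle)
      rw [hz1] at this
      linarith only [this, hr0ρ]
    have h1 : 1 < r0 / dg g p x * bf g p x := lt_of_lt_of_le hbz hz3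
    have h2 : 1 / r0 * dg g p x * 1 ≤ 1 / r0 * dg g p x * (r0 / dg g p x * bf g p x) :=
      mul_le_mul_of_nonneg_left h1.le (mul_nonneg (one_div_pos.2 hr0pos).le hD.le)
    have h3 : 1 / r0 * dg g p x * (r0 / dg g p x * bf g p x) = bf g p x := by
      field_simp
    rw [h3, mul_one] at h2
    exact h2
  · intro R
    obtain ⟨ρ', hρ'⟩ := ha R
    exact (hHr n g hg hC p ρ').of_isClosed_subset (isClosed_le hbc continuous_const)
      (fun x hx => hρ' x hx)

end Pool.Agent.Helper7.LH

end
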