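import Pool.Agent.Helper62.LH.StS

/-!
# Project LH (MP_087a81_gt), module COT

The equation `d⋆φ = 0` in coordinates for a `2`-form.
-/

set_option autoImplicit false

open Set Filter Topology MeasureTheory
open scoped ContDiff ENNReal

noncomputable section

namespace Pool.Agent.Helper7.LH

open Helper62.LH

theorem cot_ap {l : ℕ} (h : 2 + l = l + 2) (p q : E (l + 2)) (w : Fin l → E (l + 2)) :
    ap h ![p, q] w = (Fin.cons p (Fin.cons q w : Fin (l + 1) → E (l + 2)) :
      Fin (l + 2) → E (l + 2)) := by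
  funext i
  refine Fin.cases ?_ (fun i => ?_) i
  · have h1 : Fin.cast h.symm (0 : Fin (l + 2)) = Fin.castAdd l (0 : Fin 2) := by
      ext
      rfl
    change Fin.append ![p, q] w (Fin.cast h.symm (0 : Fin (l + 2))) = _
    rw [h1, Fin.append_left, Fin.cons_zero]
    rfl
  · refine Fin.cases ?_ (fun i => ?_) i
    · have h1 : Fin.cast h.symm (Fin.succ (0 : Fin (l + 1))) = Fin.castAdd l (1 : Fin 2) := by
        ext
        rfl
      change Fin.append ![p, q] w (Fin.cast h.symm (Fin.succ (0 : Fin (l + 1)))) = _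
      rw [h1, Fin.append_left, Fin.cons_succ, Fin.cons_zero]
      rfl
    · have h1 : Fin.cast h.symm (Fin.succ (Fin.succ i)) = Fin.natAdd 2 i := by
        ext
        simp only [Fin.val_cast, Fin.val_succ, Fin.val_natAdd]
        omega
      change Fin.append ![p, q] w (Fin.cast h.symm (Fin.succ (Fin.succ i))) = _
      rw [h1, Fin.append_right, Fin.cons_succ, Fin.cons_succ]

theorem cot_sum_two {α : Type} [Fintype α] (f : (Fin 2 → α) → ℝ) :
    ∑ I, f I = ∑ i, ∑ j, f ![i, j] := by
  rw [← (finTwoArrowEquiv α).symm.sum_comp f, Fintype.sum_prod_type]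
  rfl

theorem cot_dtz (hDtz : StDtz) {l : ℕ} (p q : E (l + 2)) (w : Fin (l + 1) → E (l + 2))
    (lam : Dl (l + 2)) :
    ∑ a : Fin (l + 1), (-1) ^ (a : ℕ) * (lam (w a) * vdet (Fin.cons p
      (Fin.cons q (a.removeNth w) : Fin (l + 1) → E (l + 2)) : Fin (l + 2) → E (l + 2))) =
    lam q * vdet (Fin.cons p w : Fin (l + 2) → E (l + 2)) -
      lam p * vdet (Fin.cons q w : Fin (l + 2) → E (l + 2)) := by
  have h := hDtz (l + 2) (Fin.cons p (Fin.cons q w : Fin (l + 2) → E (l + 2))) lam
  rw [Fin.sum_univ_succ, Fin.sum_univ_succ] at h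
  have e0 : (fun i : Fin (l + 2) => (Fin.cons p (Fin.cons q w : Fin (l + 2) → E (l + 2)) :
      Fin (l + 3) → E (l + 2)) ((0 : Fin (l + 3)).succAbove i)) =
      (Fin.cons q w : Fin (l + 2) → E (l + 2)) := by
    funext i
    rw [Fin.zero_succAbove, Fin.cons_succ]
  have e1 : (fun i : Fin (l + 2) => (Fin.cons p (Fin.cons q w : Fin (l + 2) → E (l + 2)) :
      Fin (l + 3) → E (l + 2)) ((Fin.succ (0 : Fin (l + 2))).succAbove i)) =
      (Fin.cons p w : Fin (l + 2) → E (l + 2)) := by
    funext i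
    refine Fin.cases ?_ (fun i => ?_) i
    · rw [Fin.succ_succAbove_zero, Fin.cons_zero, Fin.cons_zero]
    · rw [Fin.succ_succAbove_succ, Fin.zero_succAbove, Fin.cons_succ, Fin.cons_succ, Fin.cons_succ]
  have e2 : ∀ c : Fin (l + 1), (fun i : Fin (l + 2) =>
      (Fin.cons p (Fin.cons q w : Fin (l + 2) → E (l + 2)) :
      Fin (l + 3) → E (l + 2)) ((c.succ.succ).succAbove i)) =
      (Fin.cons p (Fin.cons q (c.removeNth w) : Fin (l + 1) → E (l + 2)) :
        Fin (l + 2) → E (l + 2)) := by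
    intro c
    funext i
    refine Fin.cases ?_ (fun i => ?_) i
    · rw [Fin.succ_succAbove_zero, Fin.cons_zero, Fin.cons_zero]
    · refine Fin.cases ?_ (fun i => ?_) i
      · rw [Fin.succ_succAbove_succ, Fin.succ_succAbove_zero, Fin.cons_succ, Fin.cons_zero,
          Fin.cons_succ, Fin.cons_zero]
      · rw [Fin.succ_succAbove_succ, Fin.succ_succAbove_succ, Fin.cons_succ, Fin.cons_succ,
          Fin.cons_succ, Fin.cons_succ]
        rfl
  rw [e0, e1] at h
  simp only [e2, Fin.val_zero, Fin.val_succ, Fin.cons_zero, Fin.cons_succ, pow_zero, one_mul,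
    zero_add, pow_one] at h
  have e3 : ∀ c : Fin (l + 1), (-1 : ℝ) ^ ((c : ℕ) + 1 + 1) = (-1) ^ (c : ℕ) := by
    intro c
    rw [pow_succ, pow_succ]
    ring
  simp only [e3] at h
  linarith only [h]

theorem hCot (hShp : StShp) (hDlv : StDlv) (hDtz : StDtz) : StCot := by
  intro n l h g Γ hg hΓ φ τ P hP hPφ hτ hstar hd x i₀
  obtain rfl : n = l + 2 := by omega
  obtain ⟨-, -, hgi, -, -, -⟩ := hShp (l + 2) g Γ hg hΓ
  obtain ⟨hvol, -, -⟩ := hDlv (l + 2) g Γ hg hΓ
  have hPa : ∀ y u v, P y u v = -P y v u := by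
    intro y u v
    rw [hPφ, hPφ]
    have h1 := (φ y).toAlternatingMap.map_swap ![v, u] (show (0 : Fin 2) ≠ 1 by decide)
    have h2 : (![v, u] : Fin 2 → E (l + 2)) ∘ (Equiv.swap (0 : Fin 2) 1) = ![u, v] := by
      funext i
      fin_cases i
      · rfl
      · rfl
    rw [h2] at h1
    exact h1
  have hPs : ∀ a b, ContDiff ℝ ∞ (fun y => P y (ee a) (ee b)) := fun a b =>
    (hP.clm_apply contDiff_const).clm_apply contDiff_const
  obtain ⟨F, hF⟩ : ∃ F : Fin (l + 2) → Fin (l + 2) → E (l + 2) → ℝ,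
    F = fun i j y => vol g y * up g P y i j := ⟨_, rfl⟩
  have hFs : ∀ i j, ContDiff ℝ ∞ (F i j) := by
    intro i j
    rw [hF]
    refine hvol.mul ?_
    unfold up
    exact ContDiff.sum fun a _ => ContDiff.sum fun b _ =>
      ((hgi i a).mul (hgi j b)).mul (hPs a b)
  have hFd : ∀ i j, DifferentiableAt ℝ (F i j) x := fun i j =>
    (hFs i j).differentiable (by norm_num) x
  have hFa : ∀ i j, F i j = fun y => - F j i y := by
    intro i j
    funext y
    have h1 : up g P y i j = - up g P y j i := by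
      unfold up
      rw [Finset.sum_comm, ← Finset.sum_neg_distrib]
      refine Finset.sum_congr rfl fun a _ => ?_
      rw [← Finset.sum_neg_distrib]
      refine Finset.sum_congr rfl fun b _ => ?_
      rw [hPa y (ee b) (ee a)]
      ring
    simp only [hF]
    rw [h1]
    ring
  -- the star in coordinates
  have hτ1 : ∀ (w : Fin l → E (l + 2)) (y : E (l + 2)), τ y w = 1 / 2 * ∑ i, ∑ j, F i j y *
      vdet (Fin.cons (ee i) (Fin.cons (ee j) w : Fin (l + 1) → E (l + 2)) :
        Fin (l + 2) → E (l + 2)) := by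
    intro w y
    rw [hstar y w, cot_sum_two]
    have h2 : ((2 : ℕ).factorial : ℝ) = 2 := by norm_num [Nat.factorial]
    rw [h2, Finset.mul_sum, Finset.mul_sum]
    refine Finset.sum_congr rfl fun i _ => ?_
    rw [Finset.mul_sum, Finset.mul_sum]
    refine Finset.sum_congr rfl fun j _ => ?_
    have h3 : (fun a => ee (![i, j] a) : Fin 2 → E (l + 2)) = ![ee i, ee j] := by
      funext a
      fin_cases a
      · rfl
      · rfl
    rw [h3, cot_ap, cot_sum_two]
    simp only [hF, up]
    rw [Finset.mul_sum, Finset.mul_sum, Finset.sum_mul, Finset.mul_sum]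
    refine Finset.sum_congr rfl fun a _ => ?_
    rw [Finset.mul_sum, Finset.mul_sum, Finset.sum_mul, Finset.mul_sum]
    refine Finset.sum_congr rfl fun b _ => ?_
    have h4 : (fun c => ee (![a, b] c) : Fin 2 → E (l + 2)) = ![ee a, ee b] := by
      funext c
      fin_cases c
      · rfl
      · rfl
    rw [h4, ← hPφ, Fin.prod_univ_two]
    simp only [Matrix.cons_val_zero, Matrix.cons_val_one]
    ring
  obtain ⟨D, hD⟩ : ∃ D : Fin (l + 2) → Fin (l + 2) → Dl (l + 2),
    D = fun i j => fderiv ℝ (F i j) x := ⟨_, rfl⟩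
  have hDa : ∀ i j, D i j = - D j i := by
    intro i j
    rw [hD]
    simp only
    rw [hFa i j]
    exact fderiv_fun_neg
  have hfd : ∀ (w : Fin l → E (l + 2)) (v : E (l + 2)), fderiv ℝ (fun y => τ y w) x v =
      1 / 2 * ∑ i, ∑ j, D i j v *
      vdet (Fin.cons (ee i) (Fin.cons (ee j) w : Fin (l + 1) → E (l + 2)) :
        Fin (l + 2) → E (l + 2)) := by
    intro w v
    have h1 : (fun y => τ y w) = fun y => 1 / 2 * ∑ i, ∑ j, F i j y *
      vdet (Fin.cons (ee i) (Fin.cons (ee j) w : Fin (l + 1) → E (l + 2)) :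
        Fin (l + 2) → E (l + 2)) := by
      funext y
      exact hτ1 w y
    rw [h1]
    have h2 := (HasFDerivAt.fun_sum (u := Finset.univ) fun i _ =>
      HasFDerivAt.fun_sum (u := Finset.univ) fun j _ =>
        (hFd i j).hasFDerivAt.mul_const (vdet (Fin.cons (ee i) (Fin.cons (ee j) w :
          Fin (l + 1) → E (l + 2)) : Fin (l + 2) → E (l + 2)))).const_mul (1 / 2 : ℝ)
    rw [h2.fderiv]
    simp only [smul_apply, sum_apply, smul_eq_mul, hD]
    congr 1
    refine Finset.sum_congr rfl fun i _ => Finset.sum_congr rfl fun j _ => ?_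
    ring
  -- the exterior derivative
  have hmain : ∀ w : Fin (l + 1) → E (l + 2), ∑ i, (∑ j, D i j (ee j)) *
      vdet (Fin.cons (ee i) w : Fin (l + 2) → E (l + 2)) = 0 := by
    intro w
    have h1 := extDeriv_apply ((hτ.differentiable (by norm_num)) x) w
    rw [hd x] at h1
    have h2 : (0 : ℝ) = ∑ a : Fin (l + 1), (-1) ^ (a : ℕ) * (1 / 2 * ∑ i, ∑ j, D i j (w a) *
        vdet (Fin.cons (ee i) (Fin.cons (ee j) (a.removeNth w) : Fin (l + 1) → E (l + 2)) :
        Fin (l + 2) → E (l + 2))) := by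
      refine Eq.trans ?_ (h1.trans (Finset.sum_congr rfl fun a _ => ?_))
      · rfl
      · rw [hfd, zsmul_eq_mul]
        push_cast
        rfl
    have h3 : ∑ a : Fin (l + 1), (-1) ^ (a : ℕ) * (1 / 2 * ∑ i, ∑ j, D i j (w a) *
        vdet (Fin.cons (ee i) (Fin.cons (ee j) (a.removeNth w) : Fin (l + 1) → E (l + 2)) :
        Fin (l + 2) → E (l + 2))) = 1 / 2 * ∑ i, ∑ j, (D i j (ee j) *
          vdet (Fin.cons (ee i) w : Fin (l + 2) → E (l + 2)) - D i j (ee i) *
          vdet (Fin.cons (ee j) w : Fin (l + 2) → E (l + 2))) := by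
      simp only [← cot_dtz hDtz, Finset.mul_sum]
      rw [Finset.sum_comm]
      refine Finset.sum_congr rfl fun i _ => ?_
      rw [Finset.sum_comm]
      refine Finset.sum_congr rfl fun j _ => Finset.sum_congr rfl fun a _ => ?_
      ring
    have h4 : ∑ i, ∑ j, D i j (ee i) * vdet (Fin.cons (ee j) w : Fin (l + 2) → E (l + 2)) =
        - ∑ i, ∑ j, D i j (ee j) * vdet (Fin.cons (ee i) w : Fin (l + 2) → E (l + 2)) := by
      rw [Finset.sum_comm, ← Finset.sum_neg_distrib]
      refine Finset.sum_congr rfl fun i _ => ?_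
      rw [← Finset.sum_neg_distrib]
      refine Finset.sum_congr rfl fun j _ => ?_
      rw [hDa j i]
      simp only [neg_apply]
      ring
    have h5 : ∑ i, ∑ j, (D i j (ee j) * vdet (Fin.cons (ee i) w : Fin (l + 2) → E (l + 2)) -
        D i j (ee i) * vdet (Fin.cons (ee j) w : Fin (l + 2) → E (l + 2))) =
        2 * ∑ i, ∑ j, D i j (ee j) * vdet (Fin.cons (ee i) w : Fin (l + 2) → E (l + 2)) := by
      simp only [Finset.sum_sub_distrib]
      rw [h4]
      ring
    rw [h3, h5] at h2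
    simp only [Finset.sum_mul]
    linarith only [h2]
  -- the choice of the vectors
  have hw := hmain (fun c => ee (i₀.succAbove c))
  have hz : ∀ i, i ≠ i₀ → vdet (Fin.cons (ee i) (fun c : Fin (l + 1) => ee (i₀.succAbove c)) :
      Fin (l + 2) → E (l + 2)) = 0 := by
    intro i hi
    obtain ⟨c, hc⟩ := Fin.exists_succAbove_eq hi
    refine Matrix.det_zero_of_row_eq (i := 0) (j := c.succ) (Fin.succ_ne_zero c).symm ?_
    funext j
    simp only [Matrix.of_apply, Fin.cons_zero, Fin.cons_succ, hc]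
  have hnz : vdet (Fin.cons (ee i₀) (fun c : Fin (l + 1) => ee (i₀.succAbove c)) :
      Fin (l + 2) → E (l + 2)) ≠ 0 := by
    have hinj : Function.Injective (Fin.cons i₀ i₀.succAbove : Fin (l + 2) → Fin (l + 2)) := by
      rw [Fin.cons_injective_iff]
      refine ⟨?_, Fin.succAbove_right_injective⟩
      rintro ⟨c, hc⟩
      exact Fin.succAbove_ne i₀ c hc
    obtain ⟨σ, hσ⟩ : ∃ σ : Equiv.Perm (Fin (l + 2)),
        ∀ k, σ k = (Fin.cons i₀ i₀.succAbove : Fin (l + 2) → Fin (l + 2)) k :=
      ⟨Equiv.ofBijective _ (Finite.injective_iff_bijective.1 hinj), fun k => rfl⟩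
    have h1 : (Matrix.of fun k j => (Fin.cons (ee i₀) (fun c : Fin (l + 1) =>
        ee (i₀.succAbove c)) : Fin (l + 2) → E (l + 2)) k j) =
        (1 : Matrix (Fin (l + 2)) (Fin (l + 2)) ℝ).submatrix σ id := by
      ext k j
      rw [Matrix.submatrix_apply, Matrix.of_apply, hσ k, id, Matrix.one_apply]
      refine Fin.cases ?_ (fun k => ?_) k
      · rw [Fin.cons_zero, Fin.cons_zero]
        simp only [ee, PiLp.single_apply, eq_comm]
      · rw [Fin.cons_succ, Fin.cons_succ]
        simp only [ee, PiLp.single_apply, eq_comm]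
    unfold vdet
    rw [h1, Matrix.det_permute, Matrix.det_one, mul_one]
    rcases Int.units_eq_one_or (Equiv.Perm.sign σ) with h2 | h2
    · rw [h2]
      norm_num
    · rw [h2]
      norm_num
  rw [Finset.sum_eq_single i₀ (fun i _ hi => by rw [hz i hi, mul_zero])
    (fun hi => absurd (Finset.mem_univ i₀) hi)] at hw
  have hfin := (mul_eq_zero.1 hw).resolve_right hnz
  rw [hD] at hfin
  simp only [hF] at hfin
  exact hfin

end Pool.Agent.Helper7.LH

end
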