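import Pool.Agent.Helper62.LH.StG

/-!
# Project LH (MP_087a81_gt), module DEL

Small positive smooth functions.
-/

set_option autoImplicit false

open Set Filter Topology MeasureTheory
open scoped ContDiff ENNReal

noncomputable section

namespace Pool.Agent.Helper7.LH

open Helper62.LH

/-- a positive lower bound of finitely many positive numbers -/
theorem exists_low (c : ℕ → ℝ) (hc : ∀ j, 0 < c j) (N : ℕ) : ∃ e > 0, ∀ j ≤ N, e ≤ c j := by
  induction N with
  | zero =>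
    refine ⟨c 0, hc 0, fun j hj => ?_⟩
    rw [Nat.le_zero.1 hj]
  | succ N ih =>
    obtain ⟨e, he, hj⟩ := ih
    refine ⟨min e (c (N + 1)), lt_min he (hc _), fun j hjN => ?_⟩
    rcases Nat.lt_or_ge N j with h | h
    · have : j = N + 1 := by omega
      rw [this]
      exact min_le_right _ _
    · exact (min_le_left _ _).trans (hj j h)

/-- a common bound of finitely many bounded functions -/
theorem exists_up (P : ℕ → ℝ → Prop) (hmono : ∀ k a b, a ≤ b → P k a → P k b)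
    (hP : ∀ k, ∃ R, P k R) (N : ℕ) : ∃ R > 0, ∀ k ≤ N, P k R := by
  induction N with
  | zero =>
    obtain ⟨R, hR⟩ := hP 0
    refine ⟨max R 1, lt_max_of_lt_right one_pos, fun k hk => ?_⟩
    rw [Nat.le_zero.1 hk]
    exact hmono _ _ _ (le_max_left _ _) hR
  | succ N ih =>
    obtain ⟨R, hR0, hR⟩ := ih
    obtain ⟨R', hR'⟩ := hP (N + 1)
    refine ⟨max R R', lt_max_of_lt_left hR0, fun k hk => ?_⟩
    rcases Nat.lt_or_ge N k with h | h
    · have : k = N + 1 := by omega
      rw [this]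
      exact hmono _ _ _ (le_max_right _ _) hR'
    · exact hmono _ _ _ (le_max_left _ _) (hR k h)

/-- the bump functions -/
def bmp (n : ℕ) (i : ℕ) : ContDiffBump (0 : E n) where
  rIn := i + 1
  rOut := i + 2
  rIn_pos := by positivity
  rIn_lt_rOut := by linarith

theorem bmp_smooth (n i : ℕ) : ContDiff ℝ ∞ (fun x => bmp n i x) := (bmp n i).contDiff

theorem bmp_bd (n i k : ℕ) : ∃ R, ∀ x, ‖iteratedFDeriv ℝ k (fun x => bmp n i x) x‖ ≤ R := by
  have hb : BddAbove (range fun x => ‖iteratedFDeriv ℝ k (fun x => bmp n i x) x‖) := by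
    apply ((bmp_smooth n i).continuous_iteratedFDeriv
      (mod_cast le_top)).norm.bddAbove_range_of_hasCompactSupport
    apply HasCompactSupport.comp_left _ norm_zero
    exact (bmp n i).hasCompactSupport.iteratedFDeriv k
  obtain ⟨R, hR⟩ := hb
  exact ⟨R, fun x => hR (mem_range_self _)⟩

theorem bmp_zero (n i k : ℕ) (x : E n) (hx : (i : ℝ) + 2 < ‖x‖) :
    iteratedFDeriv ℝ k (fun x => bmp n i x) x = 0 := by
  have h : x ∉ Function.support (iteratedFDeriv ℝ k (fun x => bmp n i x)) := by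
    intro h
    have h2 := support_iteratedFDeriv_subset k h
    have h3 : x ∈ Metric.closedBall (0 : E n) (bmp n i).rOut := by
      rw [← (bmp n i).tsupport_eq]
      exact h2
    rw [mem_closedBall_zero_iff] at h3
    have h4 : (bmp n i).rOut = (i : ℝ) + 2 := rfl
    rw [h4] at h3
    linarith only [h3, hx]
  exact Function.notMem_support.1 h

theorem hDel : StDel := by
  intro n c hc
  have h1 : ∀ i : ℕ, ∃ e > 0, ∀ j ≤ i + 2, e ≤ c j := fun i => exists_low c hc (i + 2)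
  choose e he0 he using h1
  have h2 : ∀ i : ℕ, ∃ R > 0, ∀ k ≤ i + 2,
      ∀ x, ‖iteratedFDeriv ℝ k (fun x => bmp n i x) x‖ ≤ R := fun i =>
    exists_up (fun k R => ∀ x, ‖iteratedFDeriv ℝ k (fun x => bmp n i x) x‖ ≤ R)
      (fun k a b hab h x => (h x).trans hab) (fun k => bmp_bd n i k) (i + 2)
  choose R hR0 hR using h2
  obtain ⟨d, hd⟩ : ∃ d : ℕ → ℝ, d = fun i => (1 / 2) ^ (i + 1) * (e i / R i) := ⟨_, rfl⟩
  have hd0 : ∀ i, 0 < d i := by
    intro i
    rw [hd]
    exact mul_pos (by positivity) (div_pos (he0 i) (hR0 i))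
  obtain ⟨f, hf⟩ : ∃ f : ℕ → E n → ℝ, f = fun i x => d i • bmp n i x := ⟨_, rfl⟩
  have hfs : ∀ i, ContDiff ℝ ∞ (f i) := by
    intro i
    rw [hf]
    exact (bmp_smooth n i).const_smul (d i)
  have hfk : ∀ i k x, iteratedFDeriv ℝ k (f i) x =
      d i • iteratedFDeriv ℝ k (fun x => bmp n i x) x := by
    intro i k x
    rw [hf]
    exact iteratedFDeriv_const_smul_apply' ((bmp_smooth n i).contDiffAt.of_le (mod_cast le_top))
  have hfn : ∀ i k x, ‖iteratedFDeriv ℝ k (f i) x‖ =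
      d i * ‖iteratedFDeriv ℝ k (fun x => bmp n i x) x‖ := by
    intro i k x
    rw [hfk, norm_smul, Real.norm_of_nonneg (hd0 i).le]
  have hfe : ∀ i k x, k ≤ i + 2 → ‖iteratedFDeriv ℝ k (f i) x‖ ≤ (1 / 2) ^ (i + 1) * e i := by
    intro i k x hk
    rw [hfn]
    calc d i * ‖iteratedFDeriv ℝ k (fun x => bmp n i x) x‖ ≤ d i * R i :=
          mul_le_mul_of_nonneg_left (hR i k hk x) (hd0 i).le
      _ = (1 / 2) ^ (i + 1) * e i := by
          rw [hd]
          have := (hR0 i).ne'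
          field_simp
  have hgeo : ∀ a : ℝ, Summable (fun i : ℕ => (1 / 2 : ℝ) ^ (i + 1) * a) := by
    intro a
    have h := (summable_nat_add_iff 1).2 (summable_geometric_of_lt_one
      (show (0 : ℝ) ≤ 1 / 2 by norm_num) (by norm_num))
    exact h.mul_right a
  have hsum : ∀ a : ℝ, ∑' i : ℕ, (1 / 2 : ℝ) ^ (i + 1) * a = a := by
    intro a
    rw [tsum_mul_right]
    have h : ∑' i : ℕ, (1 / 2 : ℝ) ^ (i + 1) = 1 := by
      have h3 : ∀ i : ℕ, (1 / 2 : ℝ) ^ (i + 1) = (1 / 2) ^ i * (1 / 2) := fun i => pow_succ _ _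
      simp_rw [h3]
      rw [tsum_mul_right, tsum_geometric_two]
      norm_num
    rw [h, one_mul]
  have hec : ∀ i, (1 / 2 : ℝ) ^ (i + 1) * e i ≤ (1 / 2) ^ (i + 1) * c 0 := fun i =>
    mul_le_mul_of_nonneg_left (he i 0 (Nat.zero_le _)) (by positivity)
  -- local bounds
  have hloc : ∀ (i k : ℕ) (x : E n), k ≤ 2 →
      ‖iteratedFDeriv ℝ k (f i) x‖ ≤ (1 / 2) ^ (i + 1) * c ⌊‖x‖⌋₊ := by
    intro i k x hk
    rcases Nat.lt_or_ge (i + 2) ⌊‖x‖⌋₊ with h | h
    · have h3 : ((i + 2 : ℕ) : ℝ) < ‖x‖ := by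
        have h4 : ((i + 2 : ℕ) : ℝ) < (⌊‖x‖⌋₊ : ℝ) := by exact_mod_cast h
        exact h4.trans_le (Nat.floor_le (norm_nonneg x))
      push_cast at h3
      rw [hfn, bmp_zero n i k x h3, norm_zero, mul_zero]
      exact mul_nonneg (by positivity) (hc _).le
    · exact (hfe i k x (hk.trans (by omega))).trans
        (mul_le_mul_of_nonneg_left (he i _ h) (by positivity))
  have hglob : ∀ (k i : ℕ) (x : E n), (k : ℕ∞) ≤ (2 : ℕ) →
      ‖iteratedFDeriv ℝ k (f i) x‖ ≤ (1 / 2) ^ (i + 1) * c 0 := by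
    intro k i x hk
    have hk2 : k ≤ 2 := by exact_mod_cast hk
    exact (hfe i k x (hk2.trans (by omega))).trans (hec i)
  have hker : ∀ (k : ℕ) (x : E n), k ≤ 2 →
      ‖iteratedFDeriv ℝ k (fun y => ∑' i, f i y) x‖ ≤ c ⌊‖x‖⌋₊ := by
    intro k x hk
    rw [iteratedFDeriv_tsum_apply (N := (2 : ℕ)) (v := fun _ i => (1 / 2) ^ (i + 1) * c 0)
      (fun i => (hfs i).of_le (mod_cast le_top)) (fun _ _ => hgeo (c 0)) hglob
      (by exact_mod_cast hk) x]
    have h3 := tsum_of_norm_bounded (f := fun i => iteratedFDeriv ℝ k (f i) x)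
      (g := fun i => (1 / 2 : ℝ) ^ (i + 1) * c ⌊‖x‖⌋₊) (hgeo (c ⌊‖x‖⌋₊)).hasSum
      (fun i => hloc i k x hk)
    rw [hsum] at h3
    exact h3
  refine ⟨fun x => ∑' i, f i x, ?_, ?_⟩
  · refine contDiff_tsum_of_eventually (N := ⊤) (v := fun _ i => (1 / 2) ^ (i + 1) * c 0) hfs
      (fun _ _ => hgeo (c 0)) ?_
    intro k _
    rw [Nat.cofinite_eq_atTop]
    filter_upwards [eventually_ge_atTop k] with i hi x
    exact (hfe i k x (hi.trans (by omega))).trans (hec i)
  · intro x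
    have hf0 : ∀ i, 0 ≤ f i x := by
      intro i
      rw [hf]
      exact mul_nonneg (hd0 i).le (bmp n i).nonneg
    have hfx : ∀ i, f i x ≤ (1 / 2) ^ (i + 1) * c 0 := by
      intro i
      have h3 := hglob 0 i x (by simp)
      rw [norm_iteratedFDeriv_zero, Real.norm_of_nonneg (hf0 i)] at h3
      exact h3
    have hsm : Summable (fun i => f i x) := Summable.of_nonneg_of_le hf0 hfx (hgeo (c 0))
    have hpos : 0 < ∑' i, f i x := by
      refine hsm.tsum_pos hf0 ⌊‖x‖⌋₊ ?_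
      rw [hf]
      refine mul_pos (hd0 _) ((bmp n _).pos_of_mem_ball ?_)
      rw [mem_ball_zero_iff]
      have h4 : (bmp n ⌊‖x‖⌋₊).rOut = (⌊‖x‖⌋₊ : ℝ) + 2 := rfl
      rw [h4]
      have := Nat.lt_floor_add_one ‖x‖
      linarith only [this]
    refine ⟨hpos, ?_, ?_, ?_⟩
    · have h3 := hker 0 x (by norm_num)
      rw [norm_iteratedFDeriv_zero, Real.norm_of_nonneg hpos.le] at h3
      exact h3
    · have h3 := hker 1 x (by norm_num)
      rw [norm_iteratedFDeriv_one] at h3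
      exact h3
    · have h3 := hker 2 x le_rfl
      rw [← norm_iteratedFDeriv_one, norm_iteratedFDeriv_fderiv]
      exact h3

end Pool.Agent.Helper7.LH

end
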