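import Pool.Agent.Helper62.LH.StV

/-!
# Project LH (MP_087a81_gt), module LIN

A linear isometry from `(ℝⁿ, g x)` to `ℝⁿ`.
-/

set_option autoImplicit false

open Set Filter Topology MeasureTheory
open scoped ContDiff ENNReal

noncomputable section

namespace Pool.Agent.Helper7.LH

open Helper62.LH

/-- the isometry given by an orthonormal basis -/
def isoA {n : ℕ} {g : E n → Bl n} {x : E n} {f : Fin n → E n} (hf : Onb g x f) :
    E n ≃ₗ[ℝ] E n where
  toFun v := WithLp.toLp 2 (fun i => g x v (f i))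
  map_add' v w := by
    ext i
    simp
  map_smul' c v := by
    ext i
    simp
  invFun w := ∑ i, w i • f i
  left_inv v := hf.expd v
  right_inv w := by
    ext i
    simp only [map_sum, map_smul, sum_apply, smul_apply,
      hf.orth, smul_eq_mul, mul_ite, mul_one, mul_zero]
    rw [Finset.sum_ite_eq' Finset.univ i (fun j => w j)]
    simp

theorem isoA_apply {n : ℕ} {g : E n → Bl n} {x : E n} {f : Fin n → E n} (hf : Onb g x f)
    (v : E n) (i : Fin n) : (isoA hf v) i = g x v (f i) := rfl

theorem isoA_norm {n : ℕ} {g : E n → Bl n} {x : E n} {f : Fin n → E n} (hf : Onb g x f)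
    (v : E n) : ‖isoA hf v‖ = nr g x v := by
  rw [EuclideanSpace.norm_eq, nr]
  congr 1
  have h1 : g x v v = g x v (∑ i, g x v (f i) • f i) := by rw [hf.expd v]
  rw [h1, map_sum]
  refine Finset.sum_congr rfl fun i _ => ?_
  rw [isoA_apply, map_smul, smul_eq_mul, Real.norm_eq_abs, sq_abs, sq]

theorem isoA_symm_det {n : ℕ} {g : E n → Bl n} {x : E n} {f : Fin n → E n} (hf : Onb g x f) :
    LinearMap.det ((isoA hf).symm : E n →ₗ[ℝ] E n) = vdet f := by
  rw [← LinearMap.det_toMatrix (EuclideanSpace.basisFun (Fin n) ℝ).toBasis, vdet,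
    ← Matrix.det_transpose]
  congr 1
  ext i j
  rw [Matrix.transpose_apply, LinearMap.toMatrix_apply, Matrix.of_apply,
    OrthonormalBasis.coe_toBasis, EuclideanSpace.basisFun_apply,
    OrthonormalBasis.coe_toBasis_repr_apply, EuclideanSpace.basisFun_repr]
  have h1 : ((isoA hf).symm : E n →ₗ[ℝ] E n) (EuclideanSpace.single i 1) =
      ∑ k, (EuclideanSpace.single i (1 : ℝ) : E n) k • f k := rfl
  rw [h1]
  have h2 : ∑ k, (EuclideanSpace.single i (1 : ℝ) : E n) k • f k = f i := by
    rw [Finset.sum_eq_single i]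
    · simp
    · intro k _ hk
      simp [hk]
    · intro h
      exact absurd (Finset.mem_univ i) h
  rw [h2]

theorem hLin (hOnb : StOnb) : StLin := by
  intro n g hg x
  obtain ⟨f, hf⟩ := hOnb n g hg x
  refine ⟨(isoA hf).toContinuousLinearEquiv, fun v => isoA_norm hf v, fun S => ?_⟩
  have h1 : ((isoA hf).toContinuousLinearEquiv : E n → E n) '' S =
      ((isoA hf : E n →ₗ[ℝ] E n) : E n → E n) '' S := rfl
  rw [h1, Measure.addHaar_image_linearMap]
  congr 2
  have h2 : LinearMap.det (isoA hf : E n →ₗ[ℝ] E n) *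
      LinearMap.det ((isoA hf).symm : E n →ₗ[ℝ] E n) = 1 := by
    rw [← LinearMap.det_comp]
    have h3 : (isoA hf : E n →ₗ[ℝ] E n) ∘ₗ ((isoA hf).symm : E n →ₗ[ℝ] E n) = LinearMap.id := by
      ext v
      simp
    rw [h3, LinearMap.det_id]
  rw [isoA_symm_det] at h2
  have h4 : 0 ≤ vol g x := Real.sqrt_nonneg _
  have h5 : vol g x * |vdet f| = 1 := by
    have h6 := hf.det
    have h7 : |vol g x * vdet f| = 1 := by
      rcases sq_eq_one_iff.1 h6 with h | h
      · rw [h, abs_one]
      · rw [h, abs_neg, abs_one]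
    rw [abs_mul, abs_of_nonneg h4] at h7
    exact h7
  have h8 : |LinearMap.det (isoA hf : E n →ₗ[ℝ] E n)| * |vdet f| = 1 := by
    rw [← abs_mul, h2, abs_one]
  have h9 : |vdet f| ≠ 0 := by
    intro h
    rw [h, mul_zero] at h5
    exact zero_ne_one h5
  exact mul_right_cancel₀ h9 (h8.trans h5.symm)

end Pool.Agent.Helper7.LH

end
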